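import Mathlib
import Pool.Agent.Helper8.DivBound

set_option autoImplicit false

namespace Pool.Agent.Helper33.Markov

theorem card_divisors_le' (ε : ℝ) (hε : 0 < ε) : ∃ C : ℝ, 0 < C ∧ ∀ n : ℕ, 1 ≤ n →
    ((Nat.divisors n).card : ℝ) ≤ C * (n : ℝ) ^ ε := by
  obtain ⟨C, hC, h⟩ := Pool.Agent.Helper8.ArtinLS.divisor_bound ε hε
  exact ⟨C, by linarith, h⟩

end Pool.Agent.Helper33.Markov
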